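import Pool.Agent.Lib.helper16.GLS7

set_option maxHeartbeats 400000

namespace Pool.Agent.H.MP_b21f3c_al

open Subgroup Function Pool.Agent.Lib.GLS

variable {G : Type} [Group G] [Finite G] {p : ℕ} [hp : Fact p.Prime]

theorem cardcop {H : Type} [Group H] [Finite H] (h : ∀ x : H, ∃ m : ℕ, m.Coprime p ∧ x ^ m = 1) :
    (Nat.card H).Coprime p := by
  rw [Nat.coprime_comm, hp.out.coprime_iff_not_dvd]
  intro hd
  obtain ⟨x, hx⟩ := exists_prime_orderOf_dvd_card' p hd
  obtain ⟨m, h1, h2⟩ := h x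
  have : x = 1 := cop (n := 1) h1 h2 (by rw [pow_one, ← hx, pow_orderOf_eq_one])
  rw [this, orderOf_one] at hx
  exact hp.out.ne_one hx.symm

theorem cext {K L : Subgroup G} [hK : K.Normal] (hc : ∀ k ∈ K, ∀ l ∈ L, k * l = l * k)
    (hm : ∀ k ∈ K, ∃ m : ℕ, m.Coprime p ∧ k ^ m ∈ L) {c : G} (hcK : c ∈ K)
    (hc' : ∃ m : ℕ, m.Coprime p ∧ c ^ m = 1) :
    ∃ N : Subgroup G, N.Normal ∧ Pp p N ∧ c ∈ N := by
  have hi : (center K).index.Coprime p := cardcop (H := K ⧸ center K) fun x => by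
    obtain ⟨k, rfl⟩ := QuotientGroup.mk_surjective x
    obtain ⟨m, h1, h2⟩ := hm k k.2
    refine ⟨m, h1, ?_⟩
    rw [← QuotientGroup.mk_pow, QuotientGroup.eq_one_iff, mem_center_iff]
    exact fun g => Subtype.ext (hc g g.2 _ h2)
  let T := MonoidHom.transferCenterPow K
  let N : Subgroup G :=
    { carrier := {k | k ∈ K ∧ ∃ m : ℕ, m.Coprime p ∧ k ^ m = 1}
      one_mem' := ⟨K.one_mem, 1, by simp, by simp⟩
      mul_mem' := by
        rintro a b ⟨ha, m, h1, h2⟩ ⟨hb, n, k1, k2⟩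
        refine ⟨K.mul_mem ha hb, (center K).index * (m * n), hi.mul_left (h1.mul_left k1), ?_⟩
        have hcm : Commute (T ⟨a, ha⟩) (T ⟨b, hb⟩) := Subtype.ext ((T ⟨a, ha⟩).2.comm _).eq
        have e1 : (⟨a, ha⟩ : K) ^ m = 1 := Subtype.ext h2
        have e2 : (⟨b, hb⟩ : K) ^ n = 1 := Subtype.ext k2
        have : T (⟨a, ha⟩ * ⟨b, hb⟩) ^ (m * n) = 1 := by
          rw [map_mul, hcm.mul_pow, pow_mul, ← map_pow, e1, mul_comm m, pow_mul,
            ← map_pow T ⟨b, hb⟩ n, e2]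
          simp
        have h3 := congrArg (fun t : center K => ((t : K) : G)) this
        simpa [T, ← pow_mul] using h3
      inv_mem' := by
        rintro a ⟨ha, m, h1, h2⟩
        exact ⟨K.inv_mem ha, m, h1, by rw [inv_pow, h2, inv_one]⟩ }
  refine ⟨N, ⟨?_⟩, fun g hg => hg.2, hcK, hc'⟩
  rintro a ⟨ha, m, h1, h2⟩ g
  exact ⟨hK.conj_mem a ha g, m, h1, by rw [conj_pow, h2]; simp⟩

theorem minab {N : Subgroup G} [N.Normal] (hP : IsPGroup p N) (hne : N ≠ ⊥)
    (hmin : ∀ N' : Subgroup G, N'.Normal → N' ≤ N → N' = ⊥ ∨ N' = N) :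
    (∀ a ∈ N, ∀ b ∈ N, a * b = b * a) := by
  obtain ⟨n, hnN, hn1, -, hnc⟩ := fixn hP hP hne
  rcases hmin (N ⊓ centralizer (N : Set G)) inferInstance inf_le_left with h | h
  · have : n ∈ N ⊓ centralizer (N : Set G) := ⟨hnN, hnc⟩
    rw [h] at this
    exact absurd this hn1
  · intro a ha b hb
    rw [← h] at hb
    exact hb.2 a ha

theorem cent {K L : Subgroup G} [hK : K.Normal] [hL : L.Normal] (hle : L ≤ K)
    (hP : IsPGroup p L) (hne : L ≠ ⊥) (hfr : L ≤ frattini G)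
    (hmin : ∀ N' : Subgroup G, N'.Normal → N' ≤ L → N' = ⊥ ∨ N' = L)
    (hm : ∀ k ∈ K, ∃ m : ℕ, m.Coprime p ∧ k ^ m ∈ L) : ∀ k ∈ K, ∀ l ∈ L, k * l = l * k := by
  classical
  have hc := minab hP hne hmin
  rcases hmin (L ⊓ centralizer (K : Set G)) inferInstance inf_le_left with h0 | h0
  swap
  · intro k hk l hl
    rw [← h0] at hl
    exact hl.2 k hk
  exfalso
  letI : CommGroup L :=
    { (inferInstance : Group L) with mul_comm := fun a b => Subtype.ext (hc _ a.2 _ b.2) }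
  let μ := QuotientGroup.mk' L
  let Q : Subgroup (G ⧸ L) := K.map μ
  haveI : Q.Normal := hK.map μ (QuotientGroup.mk'_surjective L)
  haveI := Fintype.ofFinite Q
  let t : Q → G := fun q => q.1.out
  have ht : ∀ q, μ (t q) = q := fun q => QuotientGroup.out_eq' q.1
  have hmem : ∀ a b : G, μ a = μ b → a * b⁻¹ ∈ L := fun a b h => by
    rw [← QuotientGroup.ker_mk' L, MonoidHom.mem_ker, map_mul, map_inv]
    exact mul_inv_eq_one.2 h
  have htK : ∀ q, t q ∈ K := fun q => by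
    obtain ⟨k, hk, e⟩ := q.2
    have := K.mul_mem (hle (hmem (t q) k ((ht q).trans e.symm))) hk
    simpa using this
  have hcop : (Fintype.card Q).Coprime p := by
    rw [← Nat.card_eq_fintype_card]
    refine cardcop fun q => ?_
    obtain ⟨m, h1, h2⟩ := hm _ (htK q)
    refine ⟨m, h1, Subtype.ext ?_⟩
    rw [Subgroup.coe_pow, ← ht, ← map_pow]
    exact (QuotientGroup.eq_one_iff _).2 h2
  let c : G →* MulAut Q := (MulAut.conjNormal (H := Q)).comp μ
  let e : G →* MulAut L := MulAut.conjNormal (H := L)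
  have h1 : ∀ g q, g * t q * g⁻¹ * (t (c g q))⁻¹ ∈ L := fun g q => hmem _ _ (by
    rw [ht, map_mul, map_mul, map_inv, ht]; rfl)
  let d : G → L := fun g => ∏ q, ⟨_, h1 g q⟩
  have hd : ∀ g h, d (g * h) = e g (d h) * d g := by
    intro g h
    simp only [d]
    rw [map_prod, ← Equiv.prod_comp (c h).toEquiv (fun q => (⟨_, h1 g q⟩ : L)),
      ← Finset.prod_mul_distrib]
    refine Finset.prod_congr rfl fun q _ => Subtype.ext ?_
    show g * h * t q * (g * h)⁻¹ * (t (c (g * h) q))⁻¹ =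
      g * (h * t q * h⁻¹ * (t (c h q))⁻¹) * g⁻¹ * (g * t (c h q) * g⁻¹ * (t (c g (c h q)))⁻¹)
    rw [map_mul, MulAut.mul_apply]
    group
  have hN : ∀ l : L, ∏ q, e (t q) l = 1 := by
    intro l
    have : ((∏ q, e (t q) l : L) : G) ∈ L ⊓ centralizer (K : Set G) := by
      refine ⟨Subtype.mem _, fun k hk => ?_⟩
      have h2 : e k (∏ q, e (t q) l) = ∏ q, e (t q) l := by
        rw [map_prod, ← Equiv.prod_comp (Equiv.mulLeft (⟨μ k, k, hk, rfl⟩ : Q))
          (fun q => e (t q) l)]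
        refine Finset.prod_congr rfl fun q _ => Subtype.ext ?_
        set u := t (Equiv.mulLeft (⟨μ k, k, hk, rfl⟩ : Q) q) with hu
        have h3 := hmem u⁻¹ (k * t q)⁻¹ (by rw [map_inv, map_inv, hu, ht, map_mul, ht]; rfl)
        show k * (t q * l * (t q)⁻¹) * k⁻¹ = u * l * u⁻¹
        calc k * (t q * l * (t q)⁻¹) * k⁻¹
            = u * (u⁻¹ * (k * t q)⁻¹⁻¹ * l) * (k * t q)⁻¹ := by group
          _ = u * l * u⁻¹ := by rw [hc _ h3 l l.2]; group
      exact mul_inv_eq_iff_eq_mul.1 (congrArg Subtype.val h2)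
    rw [h0, mem_bot] at this
    exact Subtype.ext this
  have hdl : ∀ l : L, d l = l ^ Fintype.card Q := by
    intro l
    have h2 : c l = 1 := by
      show MulAut.conjNormal (μ l) = 1
      rw [show μ l = 1 from (QuotientGroup.eq_one_iff _).2 l.2, map_one]
    rw [← Finset.card_univ, ← Finset.prod_const, ← mul_one (∏ _q : Q, l), ← hN l⁻¹,
      ← Finset.prod_mul_distrib]
    refine Finset.prod_congr rfl fun q _ => Subtype.ext ?_
    show l * t q * (l : G)⁻¹ * (t (c l q))⁻¹ = l * (t q * (l : G)⁻¹ * (t q)⁻¹)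
    rw [h2]
    simp [mul_assoc]
  have hd1 : d 1 = 1 := by simpa using hdl 1
  let M : Subgroup G :=
    { carrier := {g | d g = 1}
      one_mem' := hd1
      mul_mem' := fun {a b} ha hb => by
        show d (a * b) = 1
        rw [hd, ha, hb, map_one, mul_one]
      inv_mem' := fun {a} ha => by
        have := hd a⁻¹ a
        rw [inv_mul_cancel, hd1, ha, map_one, one_mul] at this
        exact this.symm }
  have hinj : Injective (powMonoidHom (Fintype.card Q) : L →* L) := by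
    rw [injective_iff_map_eq_one]
    intro l hl
    obtain ⟨n, hn⟩ := hP l
    exact cop hcop hl hn
  have hM : M = ⊤ := by
    apply frattini_nongenerating
    rw [eq_top_iff]
    intro g _
    obtain ⟨l, hl⟩ := Finite.injective_iff_surjective.1 hinj (d g)⁻¹
    have h2 : (l : G) * g ∈ M := by
      show d (l * g) = 1
      have : e l (d g) = d g := Subtype.ext (by
        show l * (d g : G) * (l : G)⁻¹ = d g
        rw [hc _ l.2 _ (d g).2, mul_inv_cancel_right])
      rw [hd, hdl, this]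
      exact mul_eq_one_iff_inv_eq.2 hl.symm
    have := mul_mem (mem_sup_right (S := M) (hfr (L.inv_mem l.2))) (mem_sup_left h2)
    simpa using this
  apply hne
  rw [eq_bot_iff]
  intro l hl
  have : l ∈ M := hM ▸ mem_top l
  have h2 : (⟨l, hl⟩ : L) = 1 := hinj (by rw [map_one]; exact (hdl ⟨l, hl⟩).symm.trans this)
  exact congrArg Subtype.val h2

omit hp in
theorem fratp {L : Subgroup G} [hL : L.Normal] (hne : L ≠ ⊥) (hfr : L ≤ frattini G)
    (hmin : ∀ N' : Subgroup G, N'.Normal → N' ≤ L → N' = ⊥ ∨ N' = L) :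
    ∃ r : ℕ, r.Prime ∧ IsPGroup r L := by
  obtain ⟨r, hr, hd⟩ := Nat.exists_prime_and_dvd ((one_lt_card_iff_ne_bot L).2 hne).ne'
  haveI := Fact.mk hr
  obtain ⟨P⟩ : Nonempty (Sylow r L) := inferInstance
  have h1 := P.normalizer_sup_eq_top
  have h2 : normalizer (P.map L.subtype : Set G) = ⊤ :=
    frattini_nongenerating (eq_top_iff.2 (h1 ▸ sup_le_sup_left hfr _))
  rcases hmin _ (normalizer_eq_top_iff.1 h2) (map_subtype_le _) with h | h
  · exact absurd ((map_eq_bot_iff_of_injective _ L.subtype_injective).1 h) (P.ne_bot_of_dvd_card hd)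
  · exact ⟨r, hr, h ▸ P.2.map _⟩

omit [Finite G] in
theorem ppext {H : Type} [Group H] (φ : G →* H) {r : ℕ} (hr : r.Prime) (hne : r ≠ p)
    (hk : IsPGroup r φ.ker) {K : Subgroup H} (hK : Pp p K) : Pp p (K.comap φ) := by
  intro g hg
  obtain ⟨m, h1, h2⟩ := hK _ hg
  obtain ⟨n, hn⟩ := hk ⟨g ^ m, by rw [MonoidHom.mem_ker, map_pow, h2]⟩
  exact ⟨m * r ^ n, h1.mul_left (((Nat.coprime_primes hr hp.out).2 hne).pow_left n),
    by rw [pow_mul]; exact congrArg Subtype.val hn⟩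

theorem satl : ∀ (n : ℕ) (G H : Type) [Group G] [Finite G] [Group H] (φ : G →* H),
    Nat.card G = n → Surjective φ → φ.ker ≤ frattini G → ∀ c : G,
    (∃ m : ℕ, m.Coprime p ∧ c ^ m = 1) → ∀ K : Subgroup H, K.Normal → Pp p K → φ c ∈ K →
    ∃ N : Subgroup G, N.Normal ∧ Pp p N ∧ c ∈ N := by
  intro n
  induction n using Nat.strong_induction_on with
  | _ n ih =>
    intro G H _ _ _ φ hn hφ hk c hc K hK hP hcK
    by_cases h0 : φ.ker = ⊥
    · refine ⟨K.comap φ, hK.comap φ, fun g hg => ?_, hcK⟩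
      obtain ⟨m, h1, h2⟩ := hP _ hg
      refine ⟨m, h1, ?_⟩
      rw [← mem_bot, ← h0, MonoidHom.mem_ker, map_pow, h2]
    obtain ⟨L, hL, hle, hne, hmin⟩ := minN (inferInstance : φ.ker.Normal) h0
    obtain ⟨K', k1, k2, k3⟩ := ih _ (hn ▸ lt_card_quo hne) (G ⧸ L) H (QuotientGroup.lift L φ hle) rfl
      (fun h => by
        obtain ⟨g, rfl⟩ := hφ h
        exact ⟨g, rfl⟩)
      (by
        rw [QuotientGroup.ker_lift, map_le_iff_le_comap]
        exact hk.trans (frattini_le_comap_frattini_of_surjective (QuotientGroup.mk'_surjective L)))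
      c (by
        obtain ⟨m, h1, h2⟩ := hc
        exact ⟨m, h1, by rw [← QuotientGroup.mk_pow, h2]; rfl⟩) K hK hP hcK
    obtain ⟨r, hr, hL'⟩ := fratp hne (hle.trans hk) hmin
    by_cases hrp : r = p
    · subst hrp
      haveI := k1.comap (QuotientGroup.mk' L)
      have hm : ∀ k ∈ K'.comap (QuotientGroup.mk' L), ∃ m : ℕ, m.Coprime r ∧ k ^ m ∈ L := by
        intro k hk
        obtain ⟨m, h1, h2⟩ := k2 _ hk
        exact ⟨m, h1, (QuotientGroup.eq_one_iff _).1 h2⟩
      exact cext (cent (fun l hl => by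
        show (l : G ⧸ L) ∈ K'
        rw [(QuotientGroup.eq_one_iff _).2 hl]
        exact K'.one_mem) hL' hne (hle.trans hk) hmin hm) hm k3 hc
    · exact ⟨_, k1.comap (QuotientGroup.mk' L),
        ppext _ hr hrp (by rwa [QuotientGroup.ker_mk']) k2, k3⟩

end Pool.Agent.H.MP_b21f3c_al
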