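import Pool.Agent.H.MP_b21f3c_al.A

set_option maxHeartbeats 400000

namespace Pool.Agent.H.MP_b21f3c_al

open Subgroup Function Pool.Agent.Lib.GLS

/-- the largest formation -/
def H0 (G : Type) [Group G] : Prop :=
  ∀ p q : ℕ, p.Prime → q.Prime → q ∣ p - 1 → ∀ Q : Subgroup G, IsPGroup q Q → ∀ x ∈ Q, ∀ y ∈ Q,
    ∃ N : Subgroup G, N.Normal ∧ Pp p N ∧ x * y * x⁻¹ * y⁻¹ ∈ N

variable {G H : Type} [Group G] [Group H]

theorem H0.inj (h : H0 H) (φ : G →* H) (hφ : Injective φ) : H0 G := by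
  intro p q hp hq hd Q hQ x hx y hy
  obtain ⟨N, h1, h2, h3⟩ := h p q hp hq hd (Q.map φ) (hQ.map φ) _ ⟨x, hx, rfl⟩ _ ⟨y, hy, rfl⟩
  refine ⟨N.comap φ, h1.comap φ, fun g hg => ?_, by simpa using h3⟩
  obtain ⟨k, k1, k2⟩ := h2 _ hg
  exact ⟨k, k1, hφ (by rw [map_pow, k2, map_one])⟩

theorem liftq [Finite G] (φ : G →* H) (hφ : Surjective φ) {q : ℕ} (hq : q.Prime) {Q : Subgroup H}
    (hQ : IsPGroup q Q) : ∃ P : Subgroup G, IsPGroup q P ∧ Q ≤ P.map φ := by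
  haveI := Fact.mk hq
  obtain ⟨S, hS⟩ := hQ.exists_le_sylow
  obtain ⟨P, rfl⟩ := Sylow.mapSurjective_surjective hφ q S
  exact ⟨P, P.2, hS⟩

theorem Pp.map {p : ℕ} {N : Subgroup G} (h : Pp p N) (φ : G →* H) : Pp p (N.map φ) := by
  rintro _ ⟨g, hg, rfl⟩
  obtain ⟨k, k1, k2⟩ := h g hg
  exact ⟨k, k1, by rw [← map_pow, k2, map_one]⟩

theorem H0.img [Finite G] (h : H0 G) (φ : G →* H) (hφ : Surjective φ) : H0 H := by
  intro p q hp hq hd Q hQ x hx y hy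
  obtain ⟨P, hP, hle⟩ := liftq φ hφ hq hQ
  obtain ⟨x, hx', rfl⟩ := hle hx
  obtain ⟨y, hy', rfl⟩ := hle hy
  obtain ⟨N, h1, h2, h3⟩ := h p q hp hq hd P hP x hx' y hy'
  exact ⟨N.map φ, h1.map φ hφ, Pp.map h2 φ, _, h3, by simp⟩

theorem H0.rz (N₁ N₂ : Subgroup G) [N₁.Normal] [N₂.Normal] (h : N₁ ⊓ N₂ = ⊥) (h1 : H0 (G ⧸ N₁))
    (h2 : H0 (G ⧸ N₂)) : H0 G := by
  intro p q hp hq hd Q hQ x hx y hy
  obtain ⟨M, a1, a2, a3⟩ := h1 p q hp hq hd (Q.map (QuotientGroup.mk' N₁)) (hQ.map _) _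
    ⟨x, hx, rfl⟩ _ ⟨y, hy, rfl⟩
  obtain ⟨K, b1, b2, b3⟩ := h2 p q hp hq hd (Q.map (QuotientGroup.mk' N₂)) (hQ.map _) _
    ⟨x, hx, rfl⟩ _ ⟨y, hy, rfl⟩
  haveI := a1.comap (QuotientGroup.mk' N₁)
  haveI := b1.comap (QuotientGroup.mk' N₂)
  refine ⟨M.comap (QuotientGroup.mk' N₁) ⊓ K.comap (QuotientGroup.mk' N₂), inferInstance,
    fun g hg => ?_, a3, b3⟩
  obtain ⟨k, k1, k2⟩ := a2 _ hg.1
  obtain ⟨l, l1, l2⟩ := b2 _ hg.2
  refine ⟨k * l, k1.mul_left l1, ?_⟩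
  rw [← mem_bot, ← h]
  refine ⟨?_, ?_⟩
  · rw [pow_mul]
    exact N₁.pow_mem ((QuotientGroup.eq_one_iff _).1 k2) _
  · rw [mul_comm, pow_mul]
    exact N₂.pow_mem ((QuotientGroup.eq_one_iff _).1 l2) _

theorem qcop {p q : ℕ} (hp : p.Prime) (hq : q.Prime) (hd : q ∣ p - 1) {Q : Subgroup G}
    (hQ : IsPGroup q Q) : Pp p Q := by
  intro g hg
  obtain ⟨k, hk⟩ := hQ ⟨g, hg⟩
  refine ⟨q ^ k, Nat.Coprime.pow_left k ((Nat.coprime_primes hq hp).2 ?_), congrArg Subtype.val hk⟩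
  rintro rfl
  have := Nat.le_of_dvd (by have := hq.two_le; omega) hd
  have := hq.two_le
  omega

theorem H0.sat [Finite G] (h : H0 (G ⧸ frattini G)) : H0 G := by
  intro p q hp hq hd Q hQ x hx y hy
  haveI := Fact.mk hp
  obtain ⟨M, a1, a2, a3⟩ := h p q hp hq hd (Q.map (QuotientGroup.mk' _)) (hQ.map _) _
    ⟨x, hx, rfl⟩ _ ⟨y, hy, rfl⟩
  exact satl _ G _ (QuotientGroup.mk' (frattini G)) rfl (QuotientGroup.mk'_surjective _)
    (by rw [QuotientGroup.ker_mk']) _ (qcop hp hq hd hQ _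
      (Q.mul_mem (Q.mul_mem (Q.mul_mem hx hy) (Q.inv_mem hx)) (Q.inv_mem hy))) M a1 a2 a3

/-- supersolubility -/
def SS (G : Type) [Group G] : Prop :=
  ∀ N : Subgroup G, N.Normal → N ≠ ⊤ → ∃ g, g ∉ N ∧ ∀ h, ∃ k : ℤ, h * g * h⁻¹ * (g ^ k)⁻¹ ∈ N

def Ser (G : Type) [Group G] (N : Subgroup G) : Prop :=
  ∃ (n : ℕ) (s : Fin (n + 1) → Subgroup G), s 0 = N ∧ s (Fin.last n) = ⊤ ∧
    (∀ i, (s i).Normal) ∧
    ∀ i : Fin n, s i.castSucc ≤ s i.succ ∧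
      ∃ g ∈ s i.succ, ∀ x ∈ s i.succ, ∃ k : ℤ, x * (g ^ k)⁻¹ ∈ s i.castSucc

theorem Ser.ss (h : Ser G ⊥) : SS G := by
  obtain ⟨n, s, h0, h1, h2, h3⟩ := h
  intro N hN hne
  by_contra hc
  push Not at hc
  have : ∀ i, s i ≤ N := by
    intro i
    induction i using Fin.induction with
    | zero => rw [h0]; exact bot_le
    | succ i ih =>
      obtain ⟨-, g, hg, h4⟩ := h3 i
      have hgN : g ∈ N := by
        by_contra hgN
        obtain ⟨h, hh⟩ := hc g hgN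
        obtain ⟨k, hk⟩ := h4 _ ((h2 _).conj_mem g hg h)
        exact hh k (ih hk)
      intro x hx
      obtain ⟨k, hk⟩ := h4 x hx
      simpa using N.mul_mem (ih hk) (N.zpow_mem hgN k)
  exact hne (eq_top_iff.2 (h1 ▸ this _))

theorem supz {N : Subgroup G} [N.Normal] {g x : G} :
    x ∈ N ⊔ zpowers g ↔ ∃ k : ℤ, x * (g ^ k)⁻¹ ∈ N := by
  constructor
  · intro hx
    rw [← SetLike.mem_coe, Subgroup.normal_mul] at hx
    obtain ⟨a, ha, _, ⟨k, rfl⟩, rfl⟩ := hx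
    exact ⟨k, by simpa using ha⟩
  · rintro ⟨k, hk⟩
    simpa using mul_mem (mem_sup_left hk) (mem_sup_right (S := N) (zpow_mem_zpowers g k))

theorem supzn {N : Subgroup G} [hN : N.Normal] {g : G}
    (h : ∀ h, ∃ k : ℤ, h * g * h⁻¹ * (g ^ k)⁻¹ ∈ N) : (N ⊔ zpowers g).Normal := by
  refine ⟨fun x hx a => ?_⟩
  obtain ⟨k, hk⟩ := supz.1 hx
  have h1 := (N ⊔ zpowers g).zpow_mem (supz.2 (h a)) k
  have h2 := mul_mem (mem_sup_left (hN.conj_mem _ hk a)) h1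
  rw [conj_zpow] at h2
  simpa [mul_assoc] using h2

theorem SS.ser [Finite G] (h : SS G) (N : Subgroup G) : N.Normal → Ser G N := by
  induction N using WellFoundedGT.induction with
  | _ N ih =>
    intro hN
    by_cases h0 : N = ⊤
    · exact ⟨0, fun _ => N, rfl, h0, fun _ => hN, fun i => i.elim0⟩
    obtain ⟨g, hg, h1⟩ := h N hN h0
    obtain ⟨n, s, k0, k1, k2, k3⟩ := ih (N ⊔ zpowers g)
      (left_lt_sup.2 fun hle => hg (hle (mem_zpowers g))) (supzn h1)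
    refine ⟨n + 1, Fin.cons N s, rfl, k1, fun i => ?_, fun i => ?_⟩
    · induction i using Fin.cases with
      | zero => exact hN
      | succ i => exact k2 i
    · induction i using Fin.cases with
      | zero =>
        show N ≤ s 0 ∧ ∃ g ∈ s 0, ∀ x ∈ s 0, ∃ k : ℤ, x * (g ^ k)⁻¹ ∈ N
        rw [k0]
        exact ⟨le_sup_left, g, mem_sup_right (mem_zpowers g), fun x hx => supz.1 hx⟩
      | succ i => exact k3 i

theorem SS.img (h : SS G) (φ : G →* H) (hφ : Surjective φ) : SS H := by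
  intro N hN hne
  obtain ⟨g, hg, h1⟩ := h (N.comap φ) (hN.comap φ) (fun e => hne (by
    rw [← map_comap_eq_self_of_surjective hφ N, e, map_top_of_surjective φ hφ]))
  refine ⟨φ g, hg, fun a => ?_⟩
  obtain ⟨a, rfl⟩ := hφ a
  obtain ⟨k, hk⟩ := h1 a
  exact ⟨k, by simpa using hk⟩

/-- a normal cyclic subgroup -/
def NC (g : G) : Prop := ∀ h, ∃ k : ℤ, h * g * h⁻¹ = g ^ k

theorem NC.zpow {g : G} (h : NC g) (j : ℤ) : NC (g ^ j) := fun a => by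
  obtain ⟨k, hk⟩ := h a
  exact ⟨k, by rw [← conj_zpow, hk, ← zpow_mul, ← zpow_mul, mul_comm]⟩

theorem NC.normal {g : G} (h : NC g) : (zpowers g).Normal := ⟨by
  rintro _ ⟨j, rfl⟩ a
  obtain ⟨k, hk⟩ := h.zpow j a
  exact ⟨j * k, by simp only [zpow_mul]; exact hk.symm⟩⟩

theorem NC.comm {g : G} (h : NC g) (a b : G) : a * b * a⁻¹ * b⁻¹ * g = g * (a * b * a⁻¹ * b⁻¹) := by
  obtain ⟨i, hi⟩ := h a⁻¹
  obtain ⟨j, hj⟩ := h b⁻¹
  have h1 : a⁻¹ * (b⁻¹ * g * b⁻¹⁻¹) * a⁻¹⁻¹ = b⁻¹ * (a⁻¹ * g * a⁻¹⁻¹) * b⁻¹⁻¹ := by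
    rw [hi, hj, ← conj_zpow, ← conj_zpow, hi, hj, ← zpow_mul, ← zpow_mul, mul_comm]
  calc a * b * a⁻¹ * b⁻¹ * g = a * b * (a⁻¹ * (b⁻¹ * g * b⁻¹⁻¹) * a⁻¹⁻¹) * a⁻¹ * b⁻¹ := by group
    _ = _ := by rw [h1]; group

theorem NC.prime [Finite G] {g : G} (h : NC g) (hg : g ≠ 1) :
    ∃ (r : ℕ) (g' : G), r.Prime ∧ g' ∈ zpowers g ∧ orderOf g' = r ∧ NC g' := by
  obtain ⟨r, hr, hd⟩ := Nat.exists_prime_and_dvd (mt orderOf_eq_one_iff.1 hg)
  exact ⟨r, _, hr, npow_mem_zpowers g _, orderOf_pow_orderOf_div (orderOf_pos g).ne' hd,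
    zpow_natCast g _ ▸ h.zpow _⟩

theorem ssO {p : ℕ} [Fact p.Prime] : ∀ (n : ℕ) (G : Type) [Group G] [Finite G], Nat.card G = n →
    SS G → ∀ c ∈ commutator G, (∃ m : ℕ, m.Coprime p ∧ c ^ m = 1) →
    ∃ N : Subgroup G, N.Normal ∧ Pp p N ∧ c ∈ N := by
  intro n
  induction n using Nat.strong_induction_on with
  | _ n ih =>
    intro G _ _ hn hG c hc hc'
    by_cases h0 : (⊥ : Subgroup G) = ⊤
    · exact ⟨⊥, inferInstance, fun g hg => ⟨1, by simp, by simpa using hg⟩, h0 ▸ mem_top c⟩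
    obtain ⟨g0, hg0, h1⟩ := hG ⊥ inferInstance h0
    have h2 : NC g0 := fun a => (h1 a).imp fun k hk => mul_inv_eq_one.1 hk
    obtain ⟨r, g, hr, -, hg, h3⟩ := h2.prime hg0
    haveI := h3.normal
    have hne : zpowers g ≠ ⊥ := fun h => hr.ne_one (by
      rw [← hg, zpowers_eq_bot.1 h, orderOf_one])
    obtain ⟨K, k1, k2, k3⟩ := ih _ (hn ▸ lt_card_quo hne) (G ⧸ zpowers g) rfl
      (hG.img _ (QuotientGroup.mk'_surjective _)) c
      (by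
        have := mem_map_of_mem (QuotientGroup.mk' (zpowers g)) hc
        rw [commutator_def, Subgroup.map_commutator] at this
        exact commutator_mono le_top le_top this)
      (by
        obtain ⟨m, h1, h2⟩ := hc'
        exact ⟨m, h1, by rw [← QuotientGroup.mk_pow, h2]; rfl⟩)
    have hP : IsPGroup r (zpowers g) := IsPGroup.of_card (n := 1) (by rw [Nat.card_zpowers, hg, pow_one])
    haveI := k1.comap (QuotientGroup.mk' (zpowers g))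
    by_cases hrp : r = p
    · subst hrp
      refine cext (K := K.comap (QuotientGroup.mk' (zpowers g)) ⊓ commutator G) (L := zpowers g)
        ?_ ?_ ⟨k3, hc⟩ hc'
      · rintro k ⟨-, hk⟩ _ ⟨j, rfl⟩
        have : commutator G ≤ centralizer {g} := commutator_le.2 fun a _ b _ =>
          mem_centralizer_singleton_iff.2 (h3.comm a b)
        exact (Commute.zpow_right (mem_centralizer_singleton_iff.1 (this hk) : Commute k g) j).eq
      · intro k hk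
        obtain ⟨m, h1, h2⟩ := k2 _ hk.1
        exact ⟨m, h1, (QuotientGroup.eq_one_iff _).1 h2⟩
    · exact ⟨_, this, ppext _ hr hrp (by rwa [QuotientGroup.ker_mk']) k2, k3⟩

theorem SS.h0 [Finite G] (h : SS G) : H0 G := by
  intro p q hp hq hd Q hQ x hx y hy
  haveI := Fact.mk hp
  exact ssO _ G rfl h _ (commutator_mem_commutator (mem_top x) (mem_top y)) (qcop hp hq hd hQ _
      (Q.mul_mem (Q.mul_mem (Q.mul_mem hx hy) (Q.inv_mem hx)) (Q.inv_mem hy)))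

end Pool.Agent.H.MP_b21f3c_al
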