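import Pool.Agent.H.MP_b21f3c_al.B

set_option maxHeartbeats 400000

namespace Pool.Agent.H.MP_b21f3c_al

open Subgroup Function Pool.Agent.Lib.GLS Polynomial

theorem eig {p : ℕ} [hp : Fact p.Prime] {V : Type} [AddCommGroup V] [Module (ZMod p) V] [Finite V]
    [Nontrivial V] (T : Module.End (ZMod p) V) (h : T ^ p = T) :
    ∃ c : ZMod p, ∃ v, v ≠ 0 ∧ T v = c • v := by
  have h1 := FiniteField.splits_X_pow_card_sub_X p (K := ZMod p)
  rw [Algebra.algebraMap_self, Polynomial.map_id, ZMod.card] at h1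
  have h2 : minpoly (ZMod p) T ∣ X ^ p - X := minpoly.dvd _ _ (by simp [h])
  obtain ⟨c, hc⟩ := (h1.of_dvd (FiniteField.X_pow_card_sub_X_ne_zero _ hp.out.one_lt)
    h2).exists_eval_eq_zero (minpoly.degree_pos (Algebra.IsIntegral.isIntegral T)).ne'
  obtain ⟨v, hv⟩ := (Module.End.hasEigenvalue_of_isRoot hc).exists_hasEigenvector
  exact ⟨c, v, hv.2, hv.apply_eq_smul⟩

theorem eig1 {p : ℕ} [hp : Fact p.Prime] {V : Type} [AddCommGroup V] [Finite V] [Nontrivial V]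
    (he : ∀ l : V, p • l = 0) (f : V →+ V) (h : ∀ v, f^[p] v = f v) :
    ∃ k : ℕ, ∃ v, v ≠ 0 ∧ f v = k • v := by
  haveI : Module (ZMod p) V := AddCommGroup.zmodModule he
  obtain ⟨c, v, hv, h2⟩ := eig (f.toZModLinearMap p) (by
    apply LinearMap.ext
    intro v
    rw [Module.End.pow_apply]
    exact h v)
  rw [← ZMod.natCast_zmod_val c, Nat.cast_smul_eq_nsmul] at h2
  exact ⟨c.val, v, hv, h2⟩

theorem eig2 {p : ℕ} [hp : Fact p.Prime] {L : Type} [CommGroup L] [Finite L] [Nontrivial L]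
    (he : ∀ l : L, l ^ p = 1) (f : MulAut L) (h : f ^ p = f) :
    ∃ k : ℕ, ∃ v, v ≠ 1 ∧ f v = v ^ k := by
  have hT : ∀ (n : ℕ) (v : L), f^[n] v = (f ^ n) v := by
    intro n
    induction n with
    | zero => intro v; rfl
    | succ n ih =>
      intro v
      rw [iterate_succ_apply, ih, pow_succ]
      rfl
  exact eig1 (V := Additive L) he (MonoidHom.toAdditive f.toMonoidHom) fun v =>
    (hT p v).trans (by rw [h]; rfl)

variable {G H : Type} [Group G] [Group H]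

theorem scal [Finite G] {p : ℕ} [hp : Fact p.Prime] {L : Subgroup G} [hL : L.Normal] (hne : L ≠ ⊥)
    (hmin : ∀ N' : Subgroup G, N'.Normal → N' ≤ L → N' = ⊥ ∨ N' = L)
    (hc : ∀ a ∈ L, ∀ b ∈ L, a * b = b * a) (he : ∀ l ∈ L, l ^ p = 1)
    (hab : ∀ a b : G, ∀ l ∈ L, a * b * a⁻¹ * b⁻¹ * l = l * (a * b * a⁻¹ * b⁻¹))
    (hex : ∀ a : G, ∀ l ∈ L, a ^ (p - 1) * l = l * a ^ (p - 1)) : ∃ g : G, g ≠ 1 ∧ NC g := by
  haveI : Nontrivial L := (nontrivial_iff_ne_bot L).2 hne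
  letI : CommGroup L :=
    { (inferInstance : Group L) with mul_comm := fun a b => Subtype.ext (hc _ a.2 _ b.2) }
  obtain ⟨g, hg⟩ := exists_ne (1 : L)
  refine ⟨g, fun h => hg (Subtype.ext h), fun a => ?_⟩
  let e : G →* MulAut L := MulAut.conjNormal (H := L)
  have h1 : e (a ^ (p - 1)) = 1 := by
    ext l
    show a ^ (p - 1) * l * (a ^ (p - 1))⁻¹ = l
    rw [hex a l l.2, mul_inv_cancel_right]
  obtain ⟨c, v, hv, h2⟩ := eig2 (fun l : L => Subtype.ext (he l l.2)) (e a) (by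
    rw [← map_pow, ← Nat.sub_add_cancel hp.out.one_le, pow_succ, map_mul, h1, one_mul])
  have h3 : a * v * a⁻¹ = (v : G) ^ c := congrArg Subtype.val h2
  let S : Subgroup G :=
    { carrier := {l | l ∈ L ∧ a * l * a⁻¹ = l ^ c}
      one_mem' := ⟨L.one_mem, by simp⟩
      mul_mem' := by
        rintro u w ⟨h1, h2⟩ ⟨k1, k2⟩
        exact ⟨L.mul_mem h1 k1, by
          rw [← conj_mul, h2, k2, Commute.mul_pow (hc _ h1 _ k1 : Commute u w)]⟩
      inv_mem' := by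
        rintro u ⟨h1, h2⟩
        exact ⟨L.inv_mem h1, by rw [← conj_inv, h2, inv_pow]⟩ }
  have hS : S.Normal := ⟨by
    rintro u ⟨h1, h2⟩ b
    refine ⟨hL.conj_mem u h1 b, ?_⟩
    have h4 := hab a b _ (hL.conj_mem _ (hL.conj_mem u h1 a) b)
    rw [conj_pow, ← h2]
    calc a * (b * u * b⁻¹) * a⁻¹
        = a * b * a⁻¹ * b⁻¹ * (b * (a * u * a⁻¹) * b⁻¹) * (a * b * a⁻¹ * b⁻¹)⁻¹ := by group
      _ = _ := by rw [h4, mul_inv_cancel_right]⟩
  rcases hmin S hS (fun l hl => hl.1) with h | h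
  · have : (v : G) ∈ S := ⟨Subtype.mem _, h3⟩
    rw [h, mem_bot] at this
    exact absurd (Subtype.ext this) hv
  · have : (g : G) ∈ S := by rw [h]; exact g.2
    exact ⟨c, by rw [zpow_natCast]; exact this.2⟩

theorem SS.sub [Finite G] (h : SS G) {L : Subgroup G} (hL : L.Normal) (hne : L ≠ ⊥) :
    ∃ g ∈ L, g ≠ 1 ∧ NC g := by
  obtain ⟨N, ⟨h1, h2⟩, hm⟩ := (wellFounded_gt (α := Subgroup G)).has_min
    {N | N.Normal ∧ N ⊓ L = ⊥} ⟨⊥, inferInstance, bot_inf_eq L⟩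
  obtain ⟨g0, hg0, h3⟩ := h N h1 (fun e => hne (by rwa [e, top_inf_eq] at h2))
  have h4 : (N ⊔ zpowers g0) ⊓ L ≠ ⊥ := fun e => hm _ ⟨supzn h3, e⟩
    (left_lt_sup.2 fun hle => hg0 (hle (mem_zpowers g0)))
  obtain ⟨⟨g, hg1, hg2⟩, hg⟩ := (ne_bot_iff_exists_ne_one).1 h4
  refine ⟨g, hg2, fun e => hg (Subtype.ext e), fun a => ?_⟩
  obtain ⟨j, hj⟩ := supz.1 hg1
  obtain ⟨k, hk⟩ := h3 a
  let μ := QuotientGroup.mk' N
  have hμ : ∀ x y : G, x * y⁻¹ ∈ N ↔ μ x = μ y := fun x y => by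
    rw [← mul_inv_eq_one, ← map_inv, ← map_mul]
    exact (QuotientGroup.eq_one_iff _).symm
  refine ⟨k, mul_inv_eq_one.1 ?_⟩
  rw [← mem_bot, ← h2]
  refine ⟨(hμ _ _).2 ?_, L.mul_mem (hL.conj_mem g hg2 a) (L.inv_mem (L.zpow_mem hg2 k))⟩
  rw [map_mul, map_mul, map_zpow, (hμ _ _).1 hj, ← map_mul, ← map_mul, ← conj_zpow, map_zpow,
    (hμ _ _).1 hk, ← map_zpow, ← map_zpow, ← zpow_mul, ← zpow_mul, mul_comm]

theorem loc [Finite G] {A L : Subgroup G} [hA : A.Normal] [hL : L.Normal] (h : SS A) (hne : L ≠ ⊥)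
    (hmin : ∀ N' : Subgroup G, N'.Normal → N' ≤ L → N' = ⊥ ∨ N' = L) (hle : L ≤ A) :
    ∃ r : ℕ, r.Prime ∧ (∃ g ∈ L, orderOf g = r) ∧ ⁅A, A⁆ ≤ centralizer (L : Set G) ∧
      ∀ a ∈ A, a ^ (r - 1) ∈ centralizer (L : Set G) := by
  obtain ⟨g0, h0, h1, h2⟩ := h.sub (L := L.subgroupOf A) inferInstance (by
    rwa [Ne, subgroupOf_eq_bot, disjoint_iff, inf_eq_left.2 hle])
  obtain ⟨r, g, hr, h3, h4, h5⟩ := h2.prime h1
  have hgL : (g : G) ∈ L := (zpowers_le.2 h0 : zpowers g0 ≤ L.subgroupOf A) h3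
  have hg1 : (g : G) ≠ 1 := fun e => hr.ne_one (by
    rw [← h4, show g = 1 from Subtype.ext e, orderOf_one])
  have key : ∀ T : Set G, (∀ t ∈ T, ∀ b, b * t * b⁻¹ ∈ T) → (∀ t ∈ T, t * g = g * t) →
      ∀ t ∈ T, t ∈ centralizer (L : Set G) := by
    intro T k1 k2
    have : (L ⊓ centralizer T).Normal := ⟨fun l hl b => ⟨hL.conj_mem l hl.1 b, fun t ht => by
      have := hl.2 _ (k1 t ht b⁻¹)
      calc t * (b * l * b⁻¹) = b * (b⁻¹ * t * b⁻¹⁻¹ * l) * b⁻¹ := by group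
        _ = _ := by rw [this]; group⟩⟩
    rcases hmin _ this inf_le_left with e | e
    · have : (g : G) ∈ L ⊓ centralizer T := ⟨hgL, k2⟩
      rw [e] at this
      exact absurd this hg1
    · intro t ht l hl
      have : l ∈ L ⊓ centralizer T := by rw [e]; exact hl
      exact (this.2 t ht).symm
  refine ⟨r, hr, ⟨g, hgL, by rw [← h4, orderOf_coe]⟩, fun t ht => key (⁅A, A⁆ : Subgroup G)
    (fun t ht b => (inferInstance : (⁅A, A⁆).Normal).conj_mem t ht b) (fun t ht => ?_) t ht,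
    fun a ha => key {t | ∃ a ∈ A, t = a ^ (r - 1)} ?_ ?_ _ ⟨a, ha, rfl⟩⟩
  · have : ⁅A, A⁆ ≤ centralizer {(g : G)} := commutator_le.2 fun a ha b hb =>
      mem_centralizer_singleton_iff.2 (congrArg Subtype.val (h5.comm ⟨a, ha⟩ ⟨b, hb⟩))
    exact mem_centralizer_singleton_iff.1 (this ht)
  · rintro _ ⟨a, ha, rfl⟩ b
    exact ⟨_, hA.conj_mem a ha b, conj_pow.symm⟩
  · rintro _ ⟨a, ha, rfl⟩
    obtain ⟨k, hk⟩ := h5 ⟨a, ha⟩
    set b : A := ⟨a, ha⟩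
    have h6 : ∀ n : ℕ, b ^ n * g * (b ^ n)⁻¹ = g ^ (k ^ n) := by
      intro n
      induction n with
      | zero => simp
      | succ n ih =>
        rw [pow_succ' k, zpow_mul, ← hk, conj_zpow, ← ih, pow_succ']
        group
    have h7 : IsCoprime k r := by
      rw [isCoprime_comm, (Nat.prime_iff_prime_int.1 hr).irreducible.coprime_iff_not_dvd, ← h4,
        orderOf_dvd_iff_zpow_eq_one, ← hk]
      intro e
      exact hg1 (congrArg Subtype.val (by simpa using e : g = 1))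
    have h8 := Int.ModEq.pow_card_sub_one_eq_one hr h7
    rw [← h4, ← zpow_eq_zpow_iff_modEq, h4, ← h6, zpow_one] at h8
    exact congrArg Subtype.val (mul_inv_eq_iff_eq_mul.1 h8)

theorem cpow {x y z : G} (h : x * y = z * y * x) (hx : Commute z x) (hy : Commute z y) (a b : ℤ) :
    x ^ a * y ^ b = z ^ (a * b) * y ^ b * x ^ a := by
  have h1 : x * y ^ b * x⁻¹ = z ^ b * y ^ b := by
    rw [← conj_zpow, h, mul_inv_cancel_right, hy.mul_zpow]
  have h2 : (y ^ b)⁻¹ * x * (y ^ b)⁻¹⁻¹ = z ^ b * x := by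
    rw [inv_inv, mul_assoc, mul_inv_eq_iff_eq_mul.1 h1, (hy.zpow_zpow b b).eq]
    group
  have h3 : (y ^ b)⁻¹ * x ^ a * (y ^ b)⁻¹⁻¹ = z ^ (a * b) * x ^ a := by
    rw [← conj_zpow, h2, (hx.zpow_left b).mul_zpow, ← zpow_mul, mul_comm b a]
  rw [(hy.zpow_zpow (a * b) b).eq, mul_assoc, ← h3]
  group

theorem abel [Finite H] {A B : Subgroup H} [hA : A.Normal] [hB : B.Normal] {e : ℕ} (he : e ≠ 0)
    (ha : ∀ a ∈ A, ∀ b ∈ A, a * b = b * a) (hb : ∀ a ∈ B, ∀ b ∈ B, a * b = b * a)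
    (ea : ∀ a ∈ A, a ^ e = 1) (eb : ∀ a ∈ B, a ^ e = 1)
    (hq : ∀ q : ℕ, q.Prime → q ∣ e → ∀ Q : Subgroup H, IsPGroup q Q → ∀ x ∈ Q, ∀ y ∈ Q,
      x * y = y * x) : ∀ a ∈ A, ∀ b ∈ B, a * b = b * a := by
  intro a h1 b h2
  by_contra hn
  set c := a * b * a⁻¹ * b⁻¹ with hc
  have hcA : c ∈ A := by
    have := A.mul_mem h1 (hA.conj_mem _ (A.inv_mem h1) b)
    rwa [← mul_assoc, ← mul_assoc] at this
  have hcB : c ∈ B := B.mul_mem (hB.conj_mem b h2 a) (B.inv_mem h2)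
  have hc1 : orderOf c ≠ 1 := fun h => hn (by
    have := orderOf_eq_one_iff.1 h
    rw [hc, mul_inv_eq_one, mul_inv_eq_iff_eq_mul] at this
    exact this)
  obtain ⟨q, hqp, hd⟩ := Nat.exists_prime_and_dvd hc1
  haveI := Fact.mk hqp
  obtain ⟨s, m, k1, k2⟩ := Nat.exists_eq_pow_mul_and_not_dvd he q hqp.ne_one
  have mk : ∀ (A : Subgroup H), A.Normal → (∀ a ∈ A, ∀ b ∈ A, a * b = b * a) →
      ∃ P : Subgroup H, P.Normal ∧ IsPGroup q P ∧ ∀ a ∈ A, a ^ e = 1 → a ^ m ∈ P := by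
    intro A hA ha
    refine ⟨{ carrier := {a | a ∈ A ∧ a ^ q ^ s = 1}
              one_mem' := ⟨A.one_mem, one_pow _⟩
              mul_mem' := ?_, inv_mem' := ?_ }, ⟨?_⟩, fun g => ⟨s, Subtype.ext g.2.2⟩,
      fun a h1 h2 => ⟨A.pow_mem h1 m, by rw [← pow_mul, mul_comm, ← k2, h2]⟩⟩
    · rintro u w ⟨h1, h2⟩ ⟨k1, k2⟩
      exact ⟨A.mul_mem h1 k1, by
        rw [Commute.mul_pow (ha _ h1 _ k1 : Commute u w), h2, k2, mul_one]⟩
    · rintro u ⟨h1, h2⟩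
      exact ⟨A.inv_mem h1, by rw [inv_pow, h2, inv_one]⟩
    · rintro u ⟨h1, h2⟩ g
      exact ⟨hA.conj_mem u h1 g, by rw [conj_pow, h2]; simp⟩
  obtain ⟨P, p1, p2, p3⟩ := mk A hA ha
  obtain ⟨P', q1, q2, q3⟩ := mk B hB hb
  have h3 := hq q hqp (hd.trans (orderOf_dvd_of_pow_eq_one (ea c hcA))) (P ⊔ P')
    (p2.to_sup_of_normal_left q2) _ (mem_sup_left (p3 a h1 (ea a h1))) _
    (mem_sup_right (q3 b h2 (eb b h2)))
  have h4 := cpow (x := a) (y := b) (z := c) (by rw [hc]; group) (ha _ hcA _ h1) (hb _ hcB _ h2) m m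
  rw [zpow_natCast, zpow_natCast, h3, mul_assoc, right_eq_mul, ← Nat.cast_mul, zpow_natCast] at h4
  exact k1 ((hqp.dvd_mul.1 (hd.trans (orderOf_dvd_of_pow_eq_one h4))).elim id id)

theorem rad1 [Finite G] (h : H0 G) {A B : Subgroup G} [hA : A.Normal] [hB : B.Normal]
    (sA : SS A) (sB : SS B) (hs : A ⊔ B = ⊤) (hA0 : A ≠ ⊥) : ∃ g : G, g ≠ 1 ∧ NC g := by
  obtain ⟨L, hL, hle, hne, hmin⟩ := minN hA hA0
  obtain ⟨r, hr, ⟨g, hgL, hg⟩, a1, a2⟩ := loc sA hne hmin hle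
  haveI := Fact.mk hr
  have hg1 : g ≠ 1 := fun e => hr.ne_one (by rw [← hg, e, orderOf_one])
  have hc : ∀ a ∈ L, ∀ b ∈ L, a * b = b * a := by
    rcases hmin ⁅L, L⁆ inferInstance (commutator_le_left L L) with e | e
    · intro a ha b hb
      have := commutator_mem_commutator ha hb
      rw [e, mem_bot, commutatorElement_eq_one_iff_mul_comm] at this
      exact this
    · intro a ha b hb
      exact a1 (commutator_mono hle hle (e.ge hb)) a ha
  have he : ∀ l ∈ L, l ^ r = 1 := by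
    let S : Subgroup G :=
      { carrier := {a | a ∈ L ∧ a ^ r = 1}
        one_mem' := ⟨L.one_mem, one_pow _⟩
        mul_mem' := by
          rintro u w ⟨h1, h2⟩ ⟨k1, k2⟩
          exact ⟨L.mul_mem h1 k1, by
            rw [Commute.mul_pow (hc _ h1 _ k1 : Commute u w), h2, k2, mul_one]⟩
        inv_mem' := by
          rintro u ⟨h1, h2⟩
          exact ⟨L.inv_mem h1, by rw [inv_pow, h2, inv_one]⟩ }
    rcases hmin S ⟨by
      rintro u ⟨h1, h2⟩ g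
      exact ⟨hL.conj_mem u h1 g, by rw [conj_pow, h2]; simp⟩⟩ (fun l hl => hl.1) with e | e
    · have : g ∈ S := ⟨hgL, hg ▸ pow_orderOf_eq_one g⟩
      rw [e] at this
      exact absurd this hg1
    · intro l hl
      exact (e.ge hl).2
  have hb : ⁅B, B⁆ ≤ centralizer (L : Set G) ∧ ∀ a ∈ B, a ^ (r - 1) ∈ centralizer (L : Set G) := by
    rcases hmin (L ⊓ B) inferInstance inf_le_left with e | e
    · have : B ≤ centralizer (L : Set G) := fun b hb l hl =>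
        commute_of_normal_of_disjoint L B hL hB (disjoint_iff.2 e) l b hl hb
      exact ⟨(commutator_le_left B B).trans this, fun a ha => this (B.pow_mem ha _)⟩
    · obtain ⟨r', hr', ⟨g', k1, k2⟩, b1, b2⟩ := loc sB hne hmin (inf_eq_left.1 e)
      have : r' = r := (Nat.prime_dvd_prime_iff_eq hr' hr).1
        (k2 ▸ orderOf_dvd_of_pow_eq_one (he g' k1))
      exact ⟨b1, this ▸ b2⟩
  let μ := QuotientGroup.mk' (centralizer (L : Set G))
  have hμ : Surjective μ := QuotientGroup.mk'_surjective _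
  have hk : ∀ x, μ x = 1 ↔ x ∈ centralizer (L : Set G) := fun x => QuotientGroup.eq_one_iff x
  have hcm : ∀ x y, μ x * μ y = μ y * μ x ↔ x * y * x⁻¹ * y⁻¹ ∈ centralizer (L : Set G) := by
    intro x y
    rw [← hk, map_mul, map_mul, map_mul, map_inv, map_inv, mul_inv_eq_one, mul_inv_eq_iff_eq_mul]
  haveI := hA.map μ hμ
  haveI := hB.map μ hμ
  have ab : ∀ D : Subgroup G, ⁅D, D⁆ ≤ centralizer (L : Set G) →
      ∀ a ∈ D.map μ, ∀ b ∈ D.map μ, a * b = b * a := by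
    rintro D hD _ ⟨a, ha, rfl⟩ _ ⟨b, hb, rfl⟩
    exact (hcm a b).2 (hD (commutator_mem_commutator ha hb))
  have ex : ∀ D : Subgroup G, (∀ a ∈ D, a ^ (r - 1) ∈ centralizer (L : Set G)) →
      ∀ a ∈ D.map μ, a ^ (r - 1) = 1 := by
    rintro D hD _ ⟨a, ha, rfl⟩
    rw [← map_pow, hk]
    exact hD a ha
  have h1 := abel (A := A.map μ) (B := B.map μ) (e := r - 1) (by have := hr.two_le; omega)
    (ab A a1) (ab B hb.1) (ex A a2) (ex B hb.2) (by
      intro q hq hd Q hQ x hx y hy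
      obtain ⟨P, hP, hle⟩ := liftq μ hμ hq hQ
      obtain ⟨x, hx', rfl⟩ := hle hx
      obtain ⟨y, hy', rfl⟩ := hle hy
      obtain ⟨N, k1, k2, k3⟩ := h r q hr hq hd P hP x hx' y hy'
      refine (hcm x y).2 fun l hl => commute_of_normal_of_disjoint L N hL k1 ?_ l _ hl k3
      rw [disjoint_def]
      intro u h1 h2
      obtain ⟨k, k4, k5⟩ := k2 u h2
      exact cop (n := 1) k4 k5 (by rw [pow_one, he u h1]))
  have dec : ∀ x, ∃ a ∈ A.map μ, ∃ b ∈ B.map μ, a * b = x := by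
    intro x
    obtain ⟨x, rfl⟩ := hμ x
    have : x ∈ ((A ⊔ B : Subgroup G) : Set G) := by rw [hs]; trivial
    rw [Subgroup.mul_normal] at this
    obtain ⟨a, ha, b, hb, rfl⟩ := this
    exact ⟨_, ⟨a, ha, rfl⟩, _, ⟨b, hb, rfl⟩, (map_mul μ a b).symm⟩
  refine scal hne hmin hc he (fun a b l hl => ((hcm a b).1 ?_ l hl).symm)
    fun a l hl => ((hk _).1 ?_ l hl).symm
  · obtain ⟨u, hu, v, hv, e⟩ := dec (μ a)
    obtain ⟨u', hu', v', hv', e'⟩ := dec (μ b)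
    rw [← e, ← e']
    exact (Commute.mul_left (Commute.mul_right (ab A a1 _ hu _ hu') (h1 _ hu _ hv'))
      (Commute.mul_right (h1 _ hu' _ hv).symm (ab B hb.1 _ hv _ hv'))).eq
  · obtain ⟨u, hu, v, hv, e⟩ := dec (μ a)
    rw [map_pow, ← e, Commute.mul_pow (h1 _ hu _ hv : Commute u v), ex A a2 _ hu, ex B hb.2 _ hv,
      mul_one]

theorem rad [Finite G] (h : H0 G) {A B : Subgroup G} (hA : A.Normal) (hB : B.Normal)
    (sA : SS A) (sB : SS B) (hs : A ⊔ B = ⊤) : SS G := by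
  intro N hN hne
  let μ := QuotientGroup.mk' N
  have hμ : Surjective μ := QuotientGroup.mk'_surjective _
  haveI := hA.map μ hμ
  haveI := hB.map μ hμ
  have h1 : A.map μ ⊔ B.map μ = ⊤ := by rw [← Subgroup.map_sup, hs, map_top_of_surjective μ hμ]
  have s1 : SS (A.map μ) := sA.img _ (μ.subgroupMap_surjective A)
  have s2 : SS (B.map μ) := sB.img _ (μ.subgroupMap_surjective B)
  have : ∃ g : G ⧸ N, g ≠ 1 ∧ NC g := by
    by_cases h0 : A.map μ = ⊥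
    · refine rad1 (h.img μ hμ) s2 s1 ((sup_comm _ _).trans h1) fun h2 => hne ?_
      rw [h0, h2, bot_sup_eq] at h1
      rw [eq_top_iff]
      intro x _
      have : μ x ∈ (⊥ : Subgroup (G ⧸ N)) := h1 ▸ mem_top _
      exact (QuotientGroup.eq_one_iff x).1 this
    · exact rad1 (h.img μ hμ) s1 s2 h1 h0
  obtain ⟨g, hg, h2⟩ := this
  obtain ⟨g, rfl⟩ := hμ g
  refine ⟨g, fun e => hg ((QuotientGroup.eq_one_iff g).2 e), fun a => ?_⟩
  obtain ⟨k, hk⟩ := h2 (μ a)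
  refine ⟨k, (QuotientGroup.eq_one_iff _).1 ?_⟩
  show μ _ = 1
  rw [map_mul, map_mul, map_mul, map_inv, map_inv, map_zpow, hk, mul_inv_cancel]

end Pool.Agent.H.MP_b21f3c_al
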