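import Pool.Agent.H.MP_b21f3c_al.C

set_option maxHeartbeats 400000

namespace Pool.Agent.H.MP_b21f3c_al

open Subgroup Function Pool.Agent.Lib.GLS RegularWreathProduct

variable {G H : Type} [Group G] [Group H] {F : (G : Type) → [Group G] → Prop}

theorem ssA [Finite G] {p : ℕ} [Fact p.Prime] {V : Subgroup G} (hV : V.Normal)
    (hc : ∀ a ∈ V, ∀ b ∈ V, a * b = b * a) (he : ∀ l ∈ V, l ^ p = 1)
    (hab : ∀ a b : G, a * b * a⁻¹ * b⁻¹ ∈ V) (hex : ∀ a : G, a ^ (p - 1) ∈ V) : SS G := by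
  intro N hN hne
  let μ := QuotientGroup.mk' N
  have hμ : Surjective μ := QuotientGroup.mk'_surjective _
  have h1 : ∀ a b : G ⧸ N, a * b * a⁻¹ * b⁻¹ ∈ V.map μ := by
    intro a b
    obtain ⟨a, rfl⟩ := hμ a
    obtain ⟨b, rfl⟩ := hμ b
    exact ⟨_, hab a b, rfl⟩
  have h2 : ∀ a ∈ V.map μ, ∀ b ∈ V.map μ, a * b = b * a := by
    rintro _ ⟨a, ha, rfl⟩ _ ⟨b, hb, rfl⟩
    rw [← map_mul, hc a ha b hb, map_mul]
  have : ∃ g : G ⧸ N, g ≠ 1 ∧ NC g := by
    by_cases h0 : V.map μ = ⊥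
    · obtain ⟨g, hg⟩ : ∃ g, g ∉ N := by
        by_contra hc
        push Not at hc
        exact hne ((eq_top_iff' N).2 hc)
      refine ⟨μ g, fun e => hg ((QuotientGroup.eq_one_iff g).1 e), fun a => ⟨1, ?_⟩⟩
      have := h1 a (μ g)
      rw [zpow_one]
      rwa [h0, mem_bot, mul_inv_eq_one] at this
    · obtain ⟨L, hL, hle, hne, hmin⟩ := minN (hV.map μ hμ) h0
      refine scal (p := p) hne hmin (fun a ha b hb => h2 _ (hle ha) _ (hle hb)) (fun l hl => ?_)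
        (fun a b l hl => h2 _ (h1 a b) _ (hle hl)) fun a l hl => h2 _ ?_ _ (hle hl)
      · obtain ⟨v, hv, rfl⟩ := hle hl
        rw [← map_pow, he v hv, map_one]
      · obtain ⟨a, rfl⟩ := hμ a
        exact ⟨_, hex a, map_pow μ _ _⟩
  obtain ⟨g, hg, h2⟩ := this
  obtain ⟨g, rfl⟩ := hμ g
  refine ⟨g, fun e => hg ((QuotientGroup.eq_one_iff g).2 e), fun a => ?_⟩
  obtain ⟨k, hk⟩ := h2 (μ a)
  refine ⟨k, (QuotientGroup.eq_one_iff _).1 ?_⟩
  show μ _ = 1
  rw [map_mul, map_mul, map_mul, map_inv, map_inv, map_zpow, hk, mul_inv_cancel]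

theorem wsec [Finite G] {p : ℕ} [NeZero p] (hF : SF F)
    (hS : ∀ (G : Type) [Group G] [Finite G] (K : Subgroup G), F G → F K) (h : F (W p G))
    {Λ : Type} [Group Λ] (μ : Λ →* G) (ν : Λ →* H) (hν : Surjective ν) (hk : μ.ker ≤ ν.ker) :
    F (W p H) := by
  classical
  let φ : μ.range →* H := μ.rangeRestrict.liftOfRightInverse _
    (rightInverse_surjInv μ.rangeRestrict_surjective) ⟨ν, by rwa [MonoidHom.ker_rangeRestrict]⟩
  have hφ : ∀ s, φ ⟨μ s, s, rfl⟩ = ν s := fun s =>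
    MonoidHom.liftOfRightInverse_comp_apply μ.rangeRestrict _ _ _ s
  let Γ : Subgroup (W p G) :=
    { carrier := {w | w.right ∈ μ.range ∧ ∀ s t, ν s = ν t → w.left (μ s) = w.left (μ t)}
      one_mem' := ⟨μ.range.one_mem, fun _ _ _ => rfl⟩
      mul_mem' := by
        rintro u v ⟨⟨r, hr⟩, h2⟩ ⟨k1, k2⟩
        refine ⟨μ.range.mul_mem ⟨r, hr⟩ k1, fun s t e => ?_⟩
        simp only [mul_left, Pi.mul_apply, ← hr, ← map_inv, ← map_mul]
        rw [h2 s t e, k2 (r⁻¹ * s) (r⁻¹ * t) (by rw [map_mul, map_mul, e])]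
      inv_mem' := by
        rintro u ⟨⟨r, hr⟩, h2⟩
        refine ⟨μ.range.inv_mem ⟨r, hr⟩, fun s t e => ?_⟩
        simp only [inv_left, Pi.inv_apply, ← hr, ← map_mul]
        rw [h2 (r * s) (r * t) (by rw [map_mul, map_mul, e])] }
  let σ := surjInv hν
  have hσ : ∀ e, ν (σ e) = e := surjInv_eq hν
  let ψ : Γ →* W p H := MonoidHom.mk'
    (fun w => ⟨fun e => w.1.left (μ (σ e)), φ ⟨w.1.right, w.2.1⟩⟩) (by
      intro u v
      obtain ⟨r, hr⟩ := u.2.1
      have e1 : φ ⟨u.1.right, u.2.1⟩ = ν r := by rw [← hφ]; congr 1; exact Subtype.ext hr.symm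
      ext e
      · simp only [Subgroup.coe_mul, mul_left, Pi.mul_apply]
        rw [e1, ← hr, ← map_inv, ← map_mul,
          v.2.2 (r⁻¹ * σ e) (σ ((ν r)⁻¹ * e)) (by rw [map_mul, hσ, hσ, map_inv])]
      · exact map_mul φ ⟨u.1.right, u.2.1⟩ ⟨v.1.right, v.2.1⟩)
  refine hF.img ψ (fun w => ?_) (hS _ Γ h)
  have e1 : ∀ s, (if h : μ s ∈ μ.range then w.left (φ ⟨_, h⟩) else 1) = w.left (ν s) := fun s => by
    rw [dif_pos ⟨s, rfl⟩, hφ]
  refine ⟨⟨⟨fun x => if h : x ∈ μ.range then w.left (φ ⟨x, h⟩) else 1, μ (σ w.right)⟩, ⟨_, rfl⟩,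
    fun s t e => (e1 s).trans (e ▸ (e1 t).symm)⟩, ?_⟩
  ext e
  · exact congrArg _ ((e1 _).trans (by rw [hσ]))
  · exact (hφ _).trans (hσ _)

theorem cl2 [Finite G] {q : ℕ} [Fact q.Prime] (hG : IsPGroup q G) {a b : G} (h : a * b ≠ b * a) :
    ∃ x y z : G, x * y = z * y * x ∧ Commute z x ∧ Commute z y ∧ orderOf z = q := by
  haveI : Nontrivial (G ⧸ center G) := by
    refine ⟨(a : G ⧸ center G), 1, fun e => h ?_⟩
    exact (mem_center_iff.1 ((QuotientGroup.eq_one_iff a).1 e) b).symm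
  haveI := (hG.to_quotient (center G)).center_nontrivial
  obtain ⟨⟨y, hy⟩, hy1⟩ := exists_ne (1 : center (G ⧸ center G))
  obtain ⟨y, rfl⟩ := QuotientGroup.mk_surjective y
  have : ∃ x, x * y ≠ y * x := by
    by_contra hc
    push Not at hc
    exact hy1 (Subtype.ext ((QuotientGroup.eq_one_iff y).2 (mem_center_iff.2 hc)))
  obtain ⟨x, hx⟩ := this
  have h1 : x * y * x⁻¹ * y⁻¹ ∈ center G := by
    rw [← QuotientGroup.eq_one_iff, QuotientGroup.mk_mul, QuotientGroup.mk_mul, QuotientGroup.mk_mul,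
      mem_center_iff.1 hy]
    simp
  set z := x * y * x⁻¹ * y⁻¹ with hz
  have h3 : ¬ Pp q (zpowers z) := by
    intro hc
    obtain ⟨j, h4, h5⟩ := hc z (mem_zpowers _)
    obtain ⟨m, hm⟩ := hG z
    have := cop h4 h5 hm
    rw [hz, mul_inv_eq_one, mul_inv_eq_iff_eq_mul] at this
    exact hx this
  obtain ⟨_, ⟨j, rfl⟩, h4⟩ := exx h3
  have c1 : ∀ g, Commute z g := fun g => (mem_center_iff.1 h1 g).symm
  have := cpow (x := x) (y := y) (z := z) (by rw [hz]; group) (c1 _) (c1 _) 1 j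
  rw [zpow_one, one_mul] at this
  exact ⟨x, y ^ j, z ^ j, this, (c1 _).zpow_left j, (c1 _).zpow_left j, h4⟩

theorem hpow {K : Type} [CommRing K] (h : Hs K) (h0 : h.a * h.b = 0) (n : ℕ) :
    h ^ n = ⟨n * h.a, n * h.b, n * h.c⟩ := by
  induction n with
  | zero => ext <;> simp
  | succ n ih =>
    rw [pow_succ, ih]
    ext
    · simp; ring
    · simp; ring
    · simp [mul_assoc, h0]; ring

theorem heis {p q : ℕ} [hp : Fact p.Prime] [hq : Fact q.Prime] (hd : q ∣ p - 1)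
    (h : ∀ A B : Subgroup (W p (Hs (ZMod q))), A.Normal → B.Normal → SS A → SS B → SS ↥(A ⊔ B)) :
    False := by
  classical
  let π : W p (Hs (ZMod q)) →* Hs (ZMod q) := rightHom
  let α : Hs (ZMod q) →* Multiplicative (ZMod q) :=
    MonoidHom.mk' (fun h => Multiplicative.ofAdd h.a) fun _ _ => rfl
  let β : Hs (ZMod q) →* Multiplicative (ZMod q) :=
    MonoidHom.mk' (fun h => Multiplicative.ofAdd h.b) fun _ _ => rfl
  have bc : ∀ u v : W p (Hs (ZMod q)), u.right = 1 → v.right = 1 → u * v = v * u := by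
    intro u v hu hv
    apply RegularWreathProduct.ext
    · simp only [mul_left, hu, hv, inv_one, one_mul]
      exact mul_comm _ _
    · simp [hu, hv]
  have bp : ∀ u : W p (Hs (ZMod q)), u.right = 1 → u ^ p = 1 := by
    intro w h1
    have : ∀ k : ℕ, w ^ k = ⟨w.left ^ k, 1⟩ := by
      intro k
      induction k with
      | zero => simp; rfl
      | succ k ih =>
        rw [pow_succ, ih]
        apply RegularWreathProduct.ext <;> simp [h1, pow_succ]
    rw [this]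
    apply RegularWreathProduct.ext
    · funext x
      apply Multiplicative.toAdd.injective
      simp
    · rfl
  have hq1 : ∀ D : Subgroup (Hs (ZMod q)), (∀ d ∈ D, d.a * d.b = 0) → ∀ d ∈ D, d ^ q = 1 := by
    intro D hD d hd
    rw [hpow d (hD d hd)]
    ext <;> simp
  have key : ∀ D : Subgroup (Hs (ZMod q)), (∀ d ∈ D, d.a * d.b = 0) →
      (∀ a ∈ D, ∀ b ∈ D, a * b = b * a) → SS (D.comap π) := by
    intro D h1 h2
    refine ssA (p := p) (V := (π.comp (D.comap π).subtype).ker) inferInstance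
      (fun a ha b hb => Subtype.ext (bc _ _ ha hb)) (fun a ha => Subtype.ext (bp _ ha))
      (fun a b => ?_) fun a => ?_
    · rw [MonoidHom.mem_ker, map_mul, map_mul, map_mul, map_inv, map_inv, mul_inv_eq_one,
        mul_inv_eq_iff_eq_mul]
      exact h2 _ a.2 _ b.2
    · obtain ⟨k, hk⟩ := hd
      rw [MonoidHom.mem_ker, map_pow, hk, pow_mul]
      exact (congrArg (· ^ k) (hq1 D h1 _ a.2)).trans (one_pow k)
  have a1 : ∀ d ∈ α.ker, d.a * d.b = 0 := fun d hd => by rw [show d.a = 0 from hd, zero_mul]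
  have b1 : ∀ d ∈ β.ker, d.a * d.b = 0 := fun d hd => by rw [show d.b = 0 from hd, mul_zero]
  have h1 := (h _ _ (Normal.comap inferInstance π) (Normal.comap inferInstance π)
    (key α.ker a1 fun a ha b hb => by
      ext <;> simp [show a.a = 0 from ha, show b.a = 0 from hb, add_comm])
    (key β.ker b1 fun a ha b hb => by
      ext <;> simp [show a.b = 0 from ha, show b.b = 0 from hb, add_comm])).h0
  have h2 : α.ker ⊔ β.ker = ⊤ := by
    rw [eq_top_iff]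
    intro d _
    have e : d = (⟨0, d.b, d.c⟩ : Hs (ZMod q)) * ⟨d.a, 0, 0⟩ := by ext <;> simp
    rw [e]
    exact mul_mem (mem_sup_left rfl) (mem_sup_right rfl)
  rw [comap_sup_eq π _ _ (fun d => ⟨inl d, rfl⟩), h2, comap_top] at h1
  have h3 : IsPGroup q (α.ker ⊔ β.ker : Subgroup (Hs (ZMod q))) :=
    IsPGroup.to_sup_of_normal_left
      (fun d => ⟨1, Subtype.ext (by rw [pow_one]; exact hq1 _ a1 _ d.2)⟩)
      (fun d => ⟨1, Subtype.ext (by rw [pow_one]; exact hq1 _ b1 _ d.2)⟩)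
  obtain ⟨N, k1, k2, k3⟩ := h1.img (Subgroup.subtype ⊤) (fun x => ⟨⟨x, trivial⟩, rfl⟩) p q hp.out
    hq.out hd _ (h3.map (inl : Hs (ZMod q) →* W p (Hs (ZMod q)))) _
    ⟨⟨1, 0, 0⟩, mem_sup_right rfl, rfl⟩ _ ⟨⟨0, 1, 0⟩, mem_sup_left rfl, rfl⟩
  rw [← map_inv, ← map_inv, ← map_mul, ← map_mul, ← map_mul] at k3
  set z : Hs (ZMod q) := ⟨1, 0, 0⟩ * ⟨0, 1, 0⟩ * (⟨1, 0, 0⟩ : Hs (ZMod q))⁻¹ *
    (⟨0, 1, 0⟩ : Hs (ZMod q))⁻¹ with hz
  have hz1 : z⁻¹ ≠ 1 := fun e => by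
    have := congrArg Hs.c e
    simp [hz] at this
  have h4 := commute_of_normal_of_disjoint π.ker N inferInstance k1 (by
    rw [disjoint_def]
    intro u h1 h2
    obtain ⟨k, k4, k5⟩ := k2 u h2
    exact cop (n := 1) k4 k5 (by rw [pow_one, bp u h1])) (bs (Pi.single 1 1) 1) _ rfl k3
  have h5 := congrFun (congrArg RegularWreathProduct.left h4.eq) 1
  simp [hz1] at h5

theorem mx (hF : SF F) (hS : ∀ (G : Type) [Group G] [Finite G] (K : Subgroup G), F G → F K)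
    (hR : ∀ (G : Type) [Group G] [Finite G], F G → ∀ A B : Subgroup G, A.Normal → B.Normal →
      SS A → SS B → SS ↥(A ⊔ B)) [Finite G] (hG : F G) : H0 G := by
  intro p q hp hq hd Q hQ x hx y hy
  haveI := Fact.mk hp
  haveI := Fact.mk hq
  obtain ⟨X, _, _, σ, hσ, hP, hX⟩ := exO p _ G rfl
  refine ⟨σ.ker, inferInstance, hP, ?_⟩
  by_contra hn
  obtain ⟨x, y, z, h1, h2, h3, h4⟩ := cl2 (hQ.map σ) (a := ⟨_, x, hx, rfl⟩) (b := ⟨_, y, hy, rfl⟩)
    (fun e => hn (by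
      rw [MonoidHom.mem_ker, map_mul, map_mul, map_mul, map_inv, map_inv, mul_inv_eq_one,
        mul_inv_eq_iff_eq_mul]
      exact congrArg Subtype.val e))
  have hFX := hF.img σ hσ hG
  have pr : ∀ (X Y : Type) [Group X] [Group Y] [Finite X] [Finite Y], F X → F Y →
      (∀ N : Subgroup X, N.Normal → Pp p N → N = ⊥) → (∀ N : Subgroup Y, N.Normal → Pp p N → N = ⊥) →
      F (X × Y) ∧ ∀ N : Subgroup (X × Y), N.Normal → Pp p N → N = ⊥ := by
    intro X Y _ _ _ _ f1 f2 o1 o2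
    refine ⟨hF.r0 (MonoidHom.fst X Y) (MonoidHom.snd X Y) Prod.fst_surjective Prod.snd_surjective
      (fun g a b => Prod.ext a b) f1 f2, fun N k1 k2 => ?_⟩
    have e1 := o1 _ (k1.map _ Prod.fst_surjective) (Pp.map k2 (MonoidHom.fst X Y))
    have e2 := o2 _ (k1.map _ Prod.snd_surjective) (Pp.map k2 (MonoidHom.snd X Y))
    rw [Subgroup.map_eq_bot_iff] at e1 e2
    rw [eq_bot_iff]
    exact fun g hg => Prod.ext (e1 hg) (e2 hg)
  obtain ⟨f2, o2⟩ := pr X X hFX hFX hX hX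
  obtain ⟨f3, o3⟩ := pr X (X × X) hFX f2 hX o2
  haveI : Nontrivial X := ⟨z, 1, fun e => hq.ne_one (by
    rw [← h4, show z = 1 from Subtype.ext e, orderOf_one])⟩
  have f4 : F (W p (X × X × X)) := hF.full f3 o3 _ _ rightHom rfl (fun g => ⟨inl g, rfl⟩) (by
    rintro ⟨w, h⟩
    have h1 : w.right = 1 := h
    refine ⟨1, Subtype.ext ?_⟩
    have : ∀ k : ℕ, w ^ k = ⟨w.left ^ k, 1⟩ := by
      intro k
      induction k with
      | zero => simp; rfl
      | succ k ih =>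
        rw [pow_succ, ih]
        apply RegularWreathProduct.ext <;> simp [h1, pow_succ]
    show w ^ p ^ 1 = 1
    rw [this]
    apply RegularWreathProduct.ext
    · funext x
      apply Multiplicative.toAdd.injective
      simp
    · rfl)
  let μ1 : Hs ℤ →* Q.map σ := MonoidHom.mk' (fun h => y ^ h.b * x ^ h.a * z ^ h.c) (by
    intro u v
    have c1 : ∀ (k : ℤ) (i j : ℤ), z ^ k * (y ^ i * x ^ j) = y ^ i * x ^ j * z ^ k := fun k i j =>
      (Commute.mul_right (h3.zpow_zpow k i) (h2.zpow_zpow k j)).eq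
    have c2 := cpow h1 h2 h3 u.a v.b
    rw [mul_assoc, c1] at c2
    simp only [Hs.mul_a, Hs.mul_b, Hs.mul_c, zpow_add]
    calc y ^ u.b * y ^ v.b * (x ^ u.a * x ^ v.a) * (z ^ u.c * z ^ v.c * z ^ (u.a * v.b))
        = y ^ u.b * (y ^ v.b * x ^ u.a * (y ^ (0 : ℤ) * x ^ v.a * z ^ (u.a * v.b))) * z ^ u.c *
            z ^ v.c := by group
      _ = y ^ u.b * (x ^ u.a * y ^ v.b) * x ^ v.a * z ^ u.c * z ^ v.c := by
          rw [← c1, c2]; group
      _ = y ^ u.b * x ^ u.a * (y ^ v.b * x ^ v.a * z ^ u.c) * z ^ v.c := by group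
      _ = _ := by rw [← c1]; group)
  let μ2 : Hs ℤ →* Q.map σ := MonoidHom.mk' (fun h => x ^ h.a) fun u v => zpow_add x _ _
  let μ3 : Hs ℤ →* Q.map σ := MonoidHom.mk' (fun h => y ^ h.b) fun u v => zpow_add y _ _
  let ι := (Q.map σ).subtype
  let ν : Hs ℤ →* Hs (ZMod q) := MonoidHom.mk' (fun h => ⟨h.a, h.b, h.c⟩) (by
    intro u v
    ext <;> simp)
  refine heis hd (hR _ (wsec hF hS f4 ((ι.comp μ1).prod ((ι.comp μ2).prod (ι.comp μ3))) ν
    (fun h => ?_) fun h hh => ?_))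
  · obtain ⟨a, ha⟩ := ZMod.intCast_surjective h.a
    obtain ⟨b, hb⟩ := ZMod.intCast_surjective h.b
    obtain ⟨c, hc⟩ := ZMod.intCast_surjective h.c
    exact ⟨⟨a, b, c⟩, Hs.ext ha hb hc⟩
  · have e1 : y ^ h.b * x ^ h.a * z ^ h.c = 1 := Subtype.ext (congrArg Prod.fst hh)
    have e2 : x ^ h.a = 1 := Subtype.ext (congrArg (·.2.1) hh)
    have e3 : y ^ h.b = 1 := Subtype.ext (congrArg (·.2.2) hh)
    have key : ∀ k : ℤ, z ^ k = 1 → (k : ZMod q) = 0 := fun k hk => by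
      rwa [ZMod.intCast_zmod_eq_zero_iff_dvd, ← h4, orderOf_dvd_iff_zpow_eq_one]
    have e4 := cpow h1 h2 h3 h.a 1
    have e5 := cpow h1 h2 h3 1 h.b
    rw [e2] at e4
    rw [e3] at e5
    rw [e2, e3] at e1
    exact Hs.ext (key _ (by simpa using e4)) (key _ (by simpa using e5)) (key _ (by simpa using e1))

end Pool.Agent.H.MP_b21f3c_al
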